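import Mathlib

set_option autoImplicit false

/-!
# Mixed lonely runner parameter spaces: finite determination holds exactly for `k ≤ 2`

`‖x‖ ≥ c` (distance to the nearest integer at least `c`) is expressed as
`∀ m : ℤ, c ≤ |x - m|`.
-/

namespace Pool.Agent.Results.MP_b1d502_nt.FiniteIffLeTwo

/-- A speed set: a `k`-tuple of pairwise distinct positive integers. -/
def IsSpeedSet {k : ℕ} (s : Fin k → ℕ) : Prop :=
  Function.Injective s ∧ ∀ i, 0 < s i

/-- The ambient box `(0, 1/2]^k`. -/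
def Box (k : ℕ) : Set (Fin k → ℝ) :=
  {d | ∀ i, 0 < d i ∧ d i ≤ 1 / 2}

/-- `A s`: those `d` in the box for which some time `t` has `‖s_i t‖ ≥ d_i` for all `i`. -/
def A {k : ℕ} (s : Fin k → ℕ) : Set (Fin k → ℝ) :=
  {d | d ∈ Box k ∧ ∃ t : ℝ, ∀ i, ∀ m : ℤ, d i ≤ |(s i : ℝ) * t - m|}

/-- The mixed loneliness parameter space: the intersection of `A s` over all speed sets. -/
def MLPS (k : ℕ) : Set (Fin k → ℝ) :=
  {d | d ∈ Box k ∧ ∀ s : Fin k → ℕ, IsSpeedSet s → d ∈ A s}

/-- `MLPS k` is the intersection (inside the box) of the `A s` over a finite family of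
speed sets. -/
def FinitelyDetermined (k : ℕ) : Prop :=
  ∃ F : Finset (Fin k → ℕ), (∀ s ∈ F, IsSpeedSet s) ∧
    MLPS k = {d | d ∈ Box k ∧ ∀ s ∈ F, d ∈ A s}

/-! ## Two runners -/

/-- If `a ≥ 3` and `a, b` are coprime there is a time at which runner `a` is at distance `1/2`
and runner `b` at distance at least `1/3`. -/
lemma exists_half_third {a b : ℕ} (ha : 3 ≤ a) (hab : Nat.Coprime a b) :
    ∃ t : ℝ, (∀ m : ℤ, (1 / 2 : ℝ) ≤ |(a : ℝ) * t - m|) ∧
      (∀ m : ℤ, (1 / 3 : ℝ) ≤ |(b : ℝ) * t - m|) := by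
  -- choose `c ∈ {a, a+1}` with the parity of `b`
  obtain ⟨c, e, hc1, hc2, hce⟩ : ∃ c e : ℤ, (a : ℤ) ≤ c ∧ c ≤ a + 1 ∧ c - b = 2 * e := by
    rcases Int.even_or_odd ((a : ℤ) - b) with h | h
    · obtain ⟨r, hr⟩ := h
      exact ⟨a, r, le_refl _, by omega, by omega⟩
    · obtain ⟨r, hr⟩ := h
      exact ⟨a + 1, r + 1, by omega, by omega, by omega⟩
  -- solve `b j = e + a n`
  obtain ⟨j, n, hjn⟩ : ∃ j n : ℤ, (b : ℤ) * j = e + a * n := by
    have hco : IsCoprime (b : ℤ) (a : ℤ) := by
      exact_mod_cast (Nat.isCoprime_iff_coprime.mpr hab.symm)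
    obtain ⟨p, q, hpq⟩ := hco
    refine ⟨p * e, -(q * e), ?_⟩
    linear_combination e * hpq
  have hapos : (0 : ℝ) < a := by
    have : 0 < a := by omega
    exact_mod_cast this
  have ha3 : (3 : ℝ) ≤ a := by exact_mod_cast ha
  refine ⟨(2 * j + 1) / (2 * a), ?_, ?_⟩
  · intro m
    have h1 : (a : ℝ) * ((2 * j + 1) / (2 * a)) - m = ((2 * (j - m) + 1 : ℤ) : ℝ) / 2 := by
      push_cast
      field_simp
      ring
    rw [h1, abs_div, abs_two]
    have h2 : (1 : ℤ) ≤ |2 * (j - m) + 1| := by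
      apply Int.one_le_abs
      omega
    have h3 : (1 : ℝ) ≤ |((2 * (j - m) + 1 : ℤ) : ℝ)| := by exact_mod_cast h2
    linarith
  · intro m
    have hjn' : (b : ℝ) * j = e + a * n := by exact_mod_cast hjn
    have hce' : (c : ℝ) - b = 2 * e := by exact_mod_cast hce
    have h1 : (b : ℝ) * ((2 * j + 1) / (2 * a)) - m = (c : ℝ) / (2 * a) + ((n - m : ℤ) : ℝ) := by
      push_cast
      field_simp
      linear_combination 2 * hjn' - hce'
    rw [h1]
    have hc1' : (a : ℝ) ≤ c := by exact_mod_cast hc1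
    have hc2' : (c : ℝ) ≤ a + 1 := by exact_mod_cast hc2
    have l1 : (1 / 2 : ℝ) ≤ (c : ℝ) / (2 * a) := by
      rw [le_div_iff₀ (by positivity)]
      linarith
    have l2 : (c : ℝ) / (2 * a) ≤ 2 / 3 := by
      rw [div_le_iff₀ (by positivity)]
      linarith
    rcases le_or_gt 0 (n - m) with h | h
    · have : (0 : ℝ) ≤ ((n - m : ℤ) : ℝ) := by exact_mod_cast h
      rw [abs_of_nonneg (by linarith)]
      linarith
    · have h' : n - m ≤ -1 := by omega
      have : ((n - m : ℤ) : ℝ) ≤ -1 := by exact_mod_cast h'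
      rw [abs_of_nonpos (by linarith)]
      linarith

/-- If `r ∈ [0, 1/2]` then `r` (modulo one, up to sign) has distance `r` to the integers. -/
lemma dist_of_small {x r : ℝ} (hr0 : 0 ≤ r) (hr : r ≤ 1 / 2) (n : ℤ)
    (hx : x = n + r ∨ x = n - r) (m : ℤ) : r ≤ |x - m| := by
  rcases lt_trichotomy m n with h | h | h
  · have h' : (m : ℝ) + 1 ≤ n := by exact_mod_cast h
    rcases hx with hx | hx <;> rw [abs_of_nonneg (by linarith)] <;> linarith
  · subst h
    rcases hx with hx | hx
    · rw [hx]; simp [abs_of_nonneg hr0]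
    · rw [hx]; simp [abs_of_nonneg hr0]
  · have h' : (n : ℝ) + 1 ≤ m := by exact_mod_cast h
    rcases hx with hx | hx <;> rw [abs_of_nonpos (by linarith)] <;> linarith

/-- One runner of speed one, the other of arbitrary speed. -/
lemma two_one {b : ℕ} (hb : 2 ≤ b) {x y : ℝ} (_hx : 0 < x) (hy : 0 < y) (_hx2 : x ≤ 1 / 2)
    (hy2 : y ≤ 1 / 2) (h1 : 2 * x + y ≤ 1) :
    ∃ t : ℝ, (∀ m : ℤ, x ≤ |t - m|) ∧ (∀ m : ℤ, y ≤ |(b : ℝ) * t - m|) := by
  have hb2 : (2 : ℝ) ≤ b := by exact_mod_cast hb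
  rcases Nat.even_or_odd' b with ⟨c, hc | hc⟩
  · have hyb : y / b ≤ y / 2 := by
      apply div_le_div_of_nonneg_left hy.le (by norm_num) hb2
    have hyb0 : 0 ≤ y / b := by positivity
    refine ⟨1 / 2 - y / b, ?_, ?_⟩
    · intro m
      have := dist_of_small (x := 1 / 2 - y / b) (r := 1 / 2 - y / b) (by linarith)
        (by linarith) 0 (Or.inl (by simp)) m
      linarith
    · intro m
      apply dist_of_small hy.le hy2 (c : ℤ) (Or.inr _)
      have : (b : ℝ) = 2 * c := by exact_mod_cast hc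
      rw [mul_sub, mul_div_cancel₀ _ (by linarith : (b : ℝ) ≠ 0), this]
      push_cast
      ring
  · refine ⟨1 / 2, ?_, ?_⟩
    · intro m
      have := dist_of_small (x := 1 / 2) (r := 1 / 2) (by norm_num) (by norm_num) 0
        (Or.inl (by simp)) m
      linarith
    · intro m
      have hb' : (b : ℝ) = 2 * c + 1 := by exact_mod_cast hc
      have := dist_of_small (x := (b : ℝ) * (1 / 2)) (r := 1 / 2) (by norm_num) (by norm_num)
        (c : ℤ) (Or.inl (by rw [hb']; push_cast; ring)) m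
      linarith

/-- One runner of speed two, the other of odd speed at least three. -/
lemma two_two {b : ℕ} (hb : 3 ≤ b) (hodd : Odd b) {x y : ℝ} (_hx : 0 < x) (hy : 0 < y)
    (_hx2 : x ≤ 1 / 2) (hy2 : y ≤ 1 / 2) (h1 : 2 * x + y ≤ 1) :
    ∃ t : ℝ, (∀ m : ℤ, x ≤ |(2 : ℝ) * t - m|) ∧ (∀ m : ℤ, y ≤ |(b : ℝ) * t - m|) := by
  have hb3 : (3 : ℝ) ≤ b := by exact_mod_cast hb
  -- the target distance of the second runner
  obtain ⟨z, hz1, hz2, hz3, hz4⟩ : ∃ z : ℝ, 1 / 4 ≤ z ∧ z ≤ 1 / 2 ∧ y ≤ z ∧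
      2 * (z - 1 / 4) ≤ 3 * (y / 2) := by
    rcases le_total y (1 / 4) with h | h
    · exact ⟨1 / 4, le_refl _, by norm_num, h, by linarith⟩
    · exact ⟨y, h, hy2, le_refl _, by linarith⟩
  set u : ℝ := 2 * (z - 1 / 4) / b with hu
  have hu0 : 0 ≤ u := by
    rw [hu]; apply div_nonneg <;> linarith
  have hbu : (b : ℝ) * u = 2 * (z - 1 / 4) := by
    rw [hu]; field_simp
  have huy : u ≤ y / 2 := by
    rw [hu, div_le_iff₀ (by linarith)]
    have : 3 * (y / 2) ≤ y / 2 * b := by
      rw [mul_comm]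
      apply mul_le_mul_of_nonneg_left hb3
      linarith
    linarith
  obtain ⟨c, hc⟩ := hodd
  rcases Nat.even_or_odd' c with ⟨e, he | he⟩
  · -- `b = 4 e + 1`
    have hb' : (b : ℝ) = 4 * e + 1 := by
      have : b = 4 * e + 1 := by omega
      exact_mod_cast this
    refine ⟨1 / 4 + u / 2, ?_, ?_⟩
    · intro m
      have := dist_of_small (x := 2 * (1 / 4 + u / 2)) (r := 1 / 2 - u) (by linarith)
        (by linarith) 1 (Or.inr (by push_cast; ring)) m
      linarith
    · intro m
      have h := dist_of_small (x := (b : ℝ) * (1 / 4 + u / 2)) (r := z) (by linarith) hz2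
        (e : ℤ) (Or.inl (by
          have : (b : ℝ) * (1 / 4 + u / 2) = b / 4 + (b * u) / 2 := by ring
          rw [this, hbu, hb']; push_cast; ring)) m
      linarith
  · -- `b = 4 e + 3`
    have hb' : (b : ℝ) = 4 * e + 3 := by
      have : b = 4 * e + 3 := by omega
      exact_mod_cast this
    refine ⟨1 / 4 - u / 2, ?_, ?_⟩
    · intro m
      have := dist_of_small (x := 2 * (1 / 4 - u / 2)) (r := 1 / 2 - u) (by linarith)
        (by linarith) 0 (Or.inl (by push_cast; ring)) m
      linarith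
    · intro m
      have h := dist_of_small (x := (b : ℝ) * (1 / 4 - u / 2)) (r := z) (by linarith) hz2
        (e + 1 : ℤ) (Or.inr (by
          have : (b : ℝ) * (1 / 4 - u / 2) = b / 4 - (b * u) / 2 := by ring
          rw [this, hbu, hb']; push_cast; ring)) m
      linarith

/-- The coprime two-runner statement. -/
lemma two_coprime {a b : ℕ} (ha : 0 < a) (hb : 0 < b) (hne : a ≠ b) (hab : Nat.Coprime a b)
    {x y : ℝ} (hx : 0 < x) (hy : 0 < y) (hx2 : x ≤ 1 / 2) (hy2 : y ≤ 1 / 2)
    (h1 : 2 * x + y ≤ 1) (h2 : x + 2 * y ≤ 1) :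
    ∃ t : ℝ, (∀ m : ℤ, x ≤ |(a : ℝ) * t - m|) ∧ (∀ m : ℤ, y ≤ |(b : ℝ) * t - m|) := by
  -- the case distinction
  have key : (a = 1 ∧ 2 ≤ b) ∨ (b = 1 ∧ 2 ≤ a) ∨ (a = 2 ∧ 3 ≤ b ∧ Odd b) ∨
      (b = 2 ∧ 3 ≤ a ∧ Odd a) ∨ (3 ≤ a ∧ 3 ≤ b) := by
    rcases Nat.lt_or_ge a 3 with h | h
    · have : a = 1 ∨ a = 2 := by omega
      rcases this with rfl | rfl
      · left; exact ⟨rfl, by omega⟩
      · rcases Nat.lt_or_ge b 3 with h' | h'
        · have : b = 1 := by omega
          right; left; exact ⟨this, le_refl _⟩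
        · right; right; left
          refine ⟨rfl, h', ?_⟩
          exact (Nat.coprime_two_left).mp hab
    · rcases Nat.lt_or_ge b 3 with h' | h'
      · have : b = 1 ∨ b = 2 := by omega
        rcases this with rfl | rfl
        · right; left; exact ⟨rfl, by omega⟩
        · right; right; right; left
          refine ⟨rfl, h, ?_⟩
          exact (Nat.coprime_two_right).mp hab
      · right; right; right; right; exact ⟨h, h'⟩
  rcases key with ⟨rfl, hb'⟩ | ⟨rfl, ha'⟩ | ⟨rfl, hb', ho⟩ | ⟨rfl, ha', ho⟩ | ⟨ha', hb'⟩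
  · obtain ⟨t, ht1, ht2⟩ := two_one hb' hx hy hx2 hy2 h1
    exact ⟨t, by simpa using ht1, ht2⟩
  · obtain ⟨t, ht1, ht2⟩ := two_one ha' hy hx hy2 hx2 (by linarith)
    exact ⟨t, ht2, by simpa using ht1⟩
  · obtain ⟨t, ht1, ht2⟩ := two_two hb' ho hx hy hx2 hy2 h1
    exact ⟨t, by simpa using ht1, ht2⟩
  · obtain ⟨t, ht1, ht2⟩ := two_two ha' ho hy hx hy2 hx2 (by linarith)
    exact ⟨t, ht2, by simpa using ht1⟩
  · rcases le_or_gt y (1 / 3) with hy3 | hy3
    · obtain ⟨t, ht1, ht2⟩ := exists_half_third ha' hab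
      exact ⟨t, fun m => hx2.trans (ht1 m), fun m => hy3.trans (ht2 m)⟩
    · have hx3 : x ≤ 1 / 3 := by linarith
      obtain ⟨t, ht1, ht2⟩ := exists_half_third hb' hab.symm
      exact ⟨t, fun m => hx3.trans (ht2 m), fun m => hy2.trans (ht1 m)⟩

/-- The two-runner statement for arbitrary distinct speeds. -/
lemma two_runners {a b : ℕ} (ha : 0 < a) (hb : 0 < b) (hne : a ≠ b)
    {x y : ℝ} (hx : 0 < x) (hy : 0 < y) (hx2 : x ≤ 1 / 2) (hy2 : y ≤ 1 / 2)
    (h1 : 2 * x + y ≤ 1) (h2 : x + 2 * y ≤ 1) :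
    ∃ t : ℝ, (∀ m : ℤ, x ≤ |(a : ℝ) * t - m|) ∧ (∀ m : ℤ, y ≤ |(b : ℝ) * t - m|) := by
  obtain ⟨g, a', b', hg, hco, rfl, rfl⟩ := Nat.exists_coprime' (m := a) (n := b)
    (Nat.gcd_pos_of_pos_left b ha)
  have hg' : (g : ℝ) ≠ 0 := by
    have : 0 < g := hg
    positivity
  obtain ⟨t, ht1, ht2⟩ := two_coprime (Nat.pos_of_mul_pos_right ha)
    (Nat.pos_of_mul_pos_right hb) (fun h => hne (by rw [h])) hco hx hy hx2 hy2 h1 h2
  refine ⟨t / g, ?_, ?_⟩
  · intro m
    have : ((a' * g : ℕ) : ℝ) * (t / g) = a' * t := by push_cast; field_simp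
    rw [this]; exact ht1 m
  · intro m
    have : ((b' * g : ℕ) : ℝ) * (t / g) = b' * t := by push_cast; field_simp
    rw [this]; exact ht2 m

/-! ## Three or more runners -/

/-- For the point `(u, 1 - 2u)` with `u` irrational, there is an irrational good time. -/
lemma exists_irrational_time {a b : ℕ} (ha : 0 < a) (hb : 0 < b) (hne : a ≠ b)
    {u : ℝ} (hu : Irrational u) (hu1 : 1 / 3 ≤ u) (hu2 : u < 1 / 2) :
    ∃ t : ℝ, Irrational t ∧ (∀ m : ℤ, u ≤ |(a : ℝ) * t - m|) ∧
      (∀ m : ℤ, 1 - 2 * u ≤ |(b : ℝ) * t - m|) := by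
  obtain ⟨t, ht1, ht2⟩ := two_runners ha hb hne (x := u) (y := 1 - 2 * u) (by linarith)
    (by linarith) hu2.le (by linarith) (by linarith) (by linarith)
  by_cases hirr : Irrational t
  · exact ⟨t, hirr, ht1, ht2⟩
  · -- `t` is rational, so both inequalities are strict, and we may perturb `t`
    obtain ⟨q, hq⟩ : ∃ q : ℚ, (q : ℝ) = t := by
      unfold Irrational at hirr
      push Not at hirr
      exact hirr
    have hs1 : u < |(a : ℝ) * t - round ((a : ℝ) * t)| := by
      refine lt_of_le_of_ne (ht1 _) ?_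
      intro h
      apply hu
      refine ⟨|(a : ℚ) * q - round ((a : ℝ) * t)|, ?_⟩
      rw [h, ← hq]
      push_cast
      rfl
    have hs2 : 1 - 2 * u < |(b : ℝ) * t - round ((b : ℝ) * t)| := by
      refine lt_of_le_of_ne (ht2 _) ?_
      intro h
      apply hu
      refine ⟨(1 - |(b : ℚ) * q - round ((b : ℝ) * t)|) / 2, ?_⟩
      have : u = (1 - |(b : ℝ) * t - round ((b : ℝ) * t)|) / 2 := by linarith
      rw [this, ← hq]
      push_cast
      rfl
    set g1 := |(a : ℝ) * t - round ((a : ℝ) * t)| - u with hg1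
    set g2 := |(b : ℝ) * t - round ((b : ℝ) * t)| - (1 - 2 * u) with hg2
    have hg1' : 0 < g1 := by linarith
    have hg2' : 0 < g2 := by linarith
    have ha' : (0 : ℝ) < a := by exact_mod_cast ha
    have hb' : (0 : ℝ) < b := by exact_mod_cast hb
    obtain ⟨r, hr, hr1, hr2⟩ := exists_irrational_btwn
      (show t < t + min (g1 / a) (g2 / b) by
        have : 0 < min (g1 / a) (g2 / b) := lt_min (by positivity) (by positivity)
        linarith)
    have e1 : (a : ℝ) * (r - t) ≤ g1 := by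
      have : r - t ≤ g1 / a := by
        have := min_le_left (g1 / a) (g2 / b)
        linarith
      calc (a : ℝ) * (r - t) ≤ a * (g1 / a) := mul_le_mul_of_nonneg_left this ha'.le
        _ = g1 := by field_simp
    have e2 : (b : ℝ) * (r - t) ≤ g2 := by
      have : r - t ≤ g2 / b := by
        have := min_le_right (g1 / a) (g2 / b)
        linarith
      calc (b : ℝ) * (r - t) ≤ b * (g2 / b) := mul_le_mul_of_nonneg_left this hb'.le
        _ = g2 := by field_simp
    refine ⟨r, hr, ?_, ?_⟩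
    · intro m
      have h1 := round_le ((a : ℝ) * t) m
      have h2 : |(a : ℝ) * t - m| ≤ |(a : ℝ) * r - m| + |(a : ℝ) * (r - t)| := by
        have : (a : ℝ) * t - m = ((a : ℝ) * r - m) - (a : ℝ) * (r - t) := by ring
        rw [this]; exact abs_sub _ _
      have h3 : |(a : ℝ) * (r - t)| = (a : ℝ) * (r - t) :=
        abs_of_nonneg (mul_nonneg ha'.le (by linarith))
      linarith
    · intro m
      have h1 := round_le ((b : ℝ) * t) m
      have h2 : |(b : ℝ) * t - m| ≤ |(b : ℝ) * r - m| + |(b : ℝ) * (r - t)| := by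
        have : (b : ℝ) * t - m = ((b : ℝ) * r - m) - (b : ℝ) * (r - t) := by ring
        rw [this]; exact abs_sub _ _
      have h3 : |(b : ℝ) * (r - t)| = (b : ℝ) * (r - t) :=
        abs_of_nonneg (mul_nonneg hb'.le (by linarith))
      linarith

/-- The test point `(u, 1 - 2u, ε, …, ε)`. -/
def testPoint (k : ℕ) (u ε : ℝ) : Fin k → ℝ :=
  fun i => if i.val = 0 then u else if i.val = 1 then 1 - 2 * u else ε

/-- Each single speed set admits the test point once `ε` is small. -/
lemma survives {k : ℕ} (hk : 3 ≤ k) {s : Fin k → ℕ} (hs : IsSpeedSet s) {u : ℝ}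
    (hu : Irrational u) (hu1 : 1 / 3 ≤ u) (hu2 : u < 1 / 2) :
    ∃ δ : ℝ, 0 < δ ∧ ∀ ε : ℝ, 0 < ε → ε ≤ 1 / 2 → ε ≤ δ → testPoint k u ε ∈ A s := by
  obtain ⟨hinj, hpos⟩ := hs
  have h01 : s ⟨0, by omega⟩ ≠ s ⟨1, by omega⟩ := by
    intro h
    have := hinj h
    simp at this
  obtain ⟨t, htirr, ht1, ht2⟩ := exists_irrational_time (hpos ⟨0, by omega⟩)
    (hpos ⟨1, by omega⟩) h01 hu hu1 hu2
  -- distances of all runners at an irrational time are positive
  have hd : ∀ i : Fin k, 0 < |(s i : ℝ) * t - round ((s i : ℝ) * t)| := by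
    intro i
    rw [abs_pos]
    intro h
    have h' : Irrational ((s i : ℝ) * t) := htirr.natCast_mul (hpos i).ne'
    apply h'
    refine ⟨round ((s i : ℝ) * t), ?_⟩
    push_cast
    linarith
  have hne : (Finset.univ : Finset (Fin k)).Nonempty := ⟨⟨0, by omega⟩, Finset.mem_univ _⟩
  refine ⟨Finset.univ.inf' hne (fun i => |(s i : ℝ) * t - round ((s i : ℝ) * t)|), ?_, ?_⟩
  · rw [Finset.lt_inf'_iff]
    intro i _
    exact hd i
  · intro ε hε hε2 hεδ
    refine ⟨?_, t, ?_⟩
    · intro i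
      unfold testPoint
      split_ifs
      · exact ⟨by linarith, hu2.le⟩
      · exact ⟨by linarith, by linarith⟩
      · exact ⟨hε, hε2⟩
    · intro i m
      unfold testPoint
      split_ifs with h0 h1
      · have : i = ⟨0, by omega⟩ := Fin.ext h0
        rw [this]; exact ht1 m
      · have : i = ⟨1, by omega⟩ := Fin.ext h1
        rw [this]; exact ht2 m
      · have h2 := Finset.inf'_le (fun i => |(s i : ℝ) * t - round ((s i : ℝ) * t)|)
          (Finset.mem_univ i)
        have h3 := round_le ((s i : ℝ) * t) m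
        linarith

/-- A finite family admits the test point once `ε` is small. -/
lemma survives_family {k : ℕ} (hk : 3 ≤ k) (F : Finset (Fin k → ℕ))
    (hF : ∀ s ∈ F, IsSpeedSet s) {u : ℝ}
    (hu : Irrational u) (hu1 : 1 / 3 ≤ u) (hu2 : u < 1 / 2) :
    ∃ ε : ℝ, 0 < ε ∧ ε ≤ 1 / 2 ∧ ∀ s ∈ F, testPoint k u ε ∈ A s := by
  suffices h : ∃ δ : ℝ, 0 < δ ∧ ∀ ε : ℝ, 0 < ε → ε ≤ 1 / 2 → ε ≤ δ →
      ∀ s ∈ F, testPoint k u ε ∈ A s by
    obtain ⟨δ, hδ, h⟩ := h
    exact ⟨min δ (1 / 2), lt_min hδ (by norm_num), min_le_right _ _,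
      h _ (lt_min hδ (by norm_num)) (min_le_right _ _) (min_le_left _ _)⟩
  classical
  induction F using Finset.induction_on with
  | empty => exact ⟨1, one_pos, fun _ _ _ _ s hs => absurd hs (Finset.notMem_empty s)⟩
  | insert s F _ ih =>
    obtain ⟨δ1, hδ1, h1⟩ := ih (fun s' hs' => hF s' (Finset.mem_insert_of_mem hs'))
    obtain ⟨δ2, hδ2, h2⟩ := survives hk (hF s (Finset.mem_insert_self s F)) hu hu1 hu2
    refine ⟨min δ1 δ2, lt_min hδ1 hδ2, ?_⟩
    intro ε h0 hh hε s' hs'
    rcases Finset.mem_insert.mp hs' with rfl | hs'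
    · exact h2 ε h0 hh (hε.trans (min_le_right _ _))
    · exact h1 ε h0 hh (hε.trans (min_le_left _ _)) s' hs'

/-- At a time which is good for the speeds `1, 2` and the point `(u, 1 - 2u)`, one is exactly
at `± u` modulo one. -/
lemma time_forced {u t : ℝ} (_hu1 : 1 / 3 ≤ u)
    (h1 : ∀ m : ℤ, u ≤ |t - m|) (h2 : ∀ m : ℤ, 1 - 2 * u ≤ |2 * t - m|) :
    ∃ n : ℤ, t = n + u ∨ t = n - u := by
  refine ⟨round t, ?_⟩
  have hr := abs_sub_round t
  have h1' := h1 (round t)
  rcases le_total 0 (t - round t) with h | h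
  · rw [abs_of_nonneg h] at hr h1'
    have h2' := h2 (2 * round t + 1)
    push_cast at h2'
    rw [abs_of_nonpos (by linarith)] at h2'
    left; linarith
  · rw [abs_of_nonpos h] at hr h1'
    have h2' := h2 (2 * round t - 1)
    push_cast at h2'
    rw [abs_of_nonneg (by linarith)] at h2'
    right; linarith

/-- The test point is never in the parameter space. -/
lemma testPoint_not_mem {k : ℕ} (hk : 3 ≤ k) {u ε : ℝ} (hu1 : 1 / 3 ≤ u)
    (hε : 0 < ε) : testPoint k u ε ∉ MLPS k := by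
  rintro ⟨_, hall⟩
  -- Dirichlet approximation with denominator divisible by three
  obtain ⟨N, hN⟩ := exists_nat_one_div_lt hε
  obtain ⟨q, hq0, _, hq⟩ := Real.exists_nat_abs_mul_sub_round_le (3 * u) (Nat.succ_pos N)
  set b : ℕ := 3 * q with hb
  have hbu : |(b : ℝ) * u - round ((q : ℝ) * (3 * u))| < ε := by
    have e : (b : ℝ) * u = (q : ℝ) * (3 * u) := by rw [hb]; push_cast; ring
    rw [e]
    refine lt_of_le_of_lt hq (lt_trans ?_ hN)
    apply one_div_lt_one_div_of_lt (by positivity)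
    push_cast
    linarith
  set r : ℤ := round ((q : ℝ) * (3 * u)) with hr
  -- the killing speed set
  let s : Fin k → ℕ := fun i => if i.val = 0 then 1 else if i.val = 1 then 2 else b + (i.val - 2)
  have hs : IsSpeedSet s := by
    refine ⟨?_, ?_⟩
    · intro i j hij
      apply Fin.ext
      simp only [s] at hij
      split_ifs at hij <;> omega
    · intro i
      simp only [s]
      split_ifs <;> omega
  obtain ⟨_, t, ht⟩ := hall s hs
  have ht0 := ht ⟨0, by omega⟩
  have ht1 := ht ⟨1, by omega⟩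
  have ht2 := ht ⟨2, by omega⟩
  simp only [s, testPoint] at ht0 ht1 ht2
  norm_num at ht0 ht1 ht2
  obtain ⟨n, hn | hn⟩ := time_forced hu1 ht0 (fun m => by linarith [ht1 m])
  · have h := ht2 ((b : ℤ) * n + r)
    rw [hn] at h
    push_cast at h
    have e : (b : ℝ) * (n + u) - (b * n + r) = b * u - r := by ring
    rw [e] at h
    linarith
  · have h := ht2 ((b : ℤ) * n - r)
    rw [hn] at h
    push_cast at h
    have e : (b : ℝ) * (n - u) - (b * n - r) = -(b * u - r) := by ring
    rw [e, abs_neg] at h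
    linarith

/-! ## Finite determination for `k = 1` and `k = 2` -/

lemma det_one : FinitelyDetermined 1 := by
  refine ⟨∅, by simp, ?_⟩
  ext d
  constructor
  · rintro ⟨h, _⟩
    exact ⟨h, by simp⟩
  · rintro ⟨h, _⟩
    refine ⟨h, ?_⟩
    intro s hs
    refine ⟨h, 1 / (2 * (s 0 : ℝ)), ?_⟩
    intro i m
    have hi : i = 0 := Subsingleton.elim _ _
    subst hi
    have h0 : (0 : ℝ) < s 0 := by exact_mod_cast hs.2 0
    have e : (s 0 : ℝ) * (1 / (2 * (s 0 : ℝ))) = 1 / 2 := by field_simp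
    rw [e]
    have := dist_of_small (x := 1 / 2) (r := 1 / 2) (by norm_num) (by norm_num) 0
      (Or.inl (by simp)) m
    have := (h 0).2
    linarith

lemma det_two : FinitelyDetermined 2 := by
  classical
  refine ⟨{![1, 2], ![2, 1]}, ?_, ?_⟩
  · intro s hs
    simp only [Finset.mem_insert, Finset.mem_singleton] at hs
    rcases hs with rfl | rfl
    · refine ⟨?_, ?_⟩
      · intro i j hij
        fin_cases i <;> fin_cases j <;> simp_all
      · intro i; fin_cases i <;> simp
    · refine ⟨?_, ?_⟩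
      · intro i j hij
        fin_cases i <;> fin_cases j <;> simp_all
      · intro i; fin_cases i <;> simp
  · ext d
    constructor
    · rintro ⟨h, hall⟩
      refine ⟨h, ?_⟩
      intro s hs
      apply hall
      simp only [Finset.mem_insert, Finset.mem_singleton] at hs
      rcases hs with rfl | rfl
      · refine ⟨?_, ?_⟩
        · intro i j hij
          fin_cases i <;> fin_cases j <;> simp_all
        · intro i; fin_cases i <;> simp
      · refine ⟨?_, ?_⟩
        · intro i j hij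
          fin_cases i <;> fin_cases j <;> simp_all
        · intro i; fin_cases i <;> simp
    · rintro ⟨h, hall⟩
      refine ⟨h, ?_⟩
      have h12 := hall ![1, 2] (by simp)
      have h21 := hall ![2, 1] (by simp)
      -- the general constraint coming from speeds `1, 2`
      have constr : ∀ x y t : ℝ, (∀ m : ℤ, x ≤ |t - m|) → (∀ m : ℤ, y ≤ |2 * t - m|) →
          2 * x + y ≤ 1 := by
        intro x y t h1 h2
        have hr := abs_sub_round t
        have h1' := h1 (round t)
        rcases le_total 0 (t - round t) with h | h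
        · rw [abs_of_nonneg h] at hr h1'
          have h2' := h2 (2 * round t + 1)
          push_cast at h2'
          rw [abs_of_nonpos (by linarith)] at h2'
          linarith
        · rw [abs_of_nonpos h] at hr h1'
          have h2' := h2 (2 * round t - 1)
          push_cast at h2'
          rw [abs_of_nonneg (by linarith)] at h2'
          linarith
      have c1 : 2 * d 0 + d 1 ≤ 1 := by
        obtain ⟨_, t, ht⟩ := h12
        apply constr _ _ t
        · intro m; simpa using ht 0 m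
        · intro m; simpa using ht 1 m
      have c2 : d 0 + 2 * d 1 ≤ 1 := by
        obtain ⟨_, t, ht⟩ := h21
        have := constr (d 1) (d 0) t (by intro m; simpa using ht 1 m)
          (by intro m; simpa using ht 0 m)
        linarith
      intro s hs
      refine ⟨h, ?_⟩
      have hne : s 0 ≠ s 1 := by
        intro h
        have := hs.1 h
        simp at this
      obtain ⟨t, ht0, ht1⟩ := two_runners (hs.2 0) (hs.2 1) hne (h 0).1 (h 1).1 (h 0).2
        (h 1).2 c1 c2
      refine ⟨t, ?_⟩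
      intro i
      fin_cases i
      · exact ht0
      · exact ht1

/-- **Theorem.** For `k ≥ 1` the mixed loneliness parameter space `MLPS k` is determined by
finitely many speed sets if and only if `k ≤ 2`. -/
theorem result : ∀ k : ℕ, 1 ≤ k → (FinitelyDetermined k ↔ k ≤ 2) := by
  intro k hk
  constructor
  · intro hfd
    by_contra hk3
    have hk3' : 3 ≤ k := by omega
    obtain ⟨F, hF, heq⟩ := hfd
    -- an irrational number in `[1/3, 1/2)`
    obtain ⟨u, hu, hu1, hu2⟩ := exists_irrational_btwn (show (1 / 3 : ℝ) < 1 / 2 by norm_num)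
    obtain ⟨ε, hε, hε2, hsurv⟩ := survives_family hk3' F hF hu hu1.le hu2
    apply testPoint_not_mem hk3' hu1.le hε
    rw [heq]
    refine ⟨?_, hsurv⟩
    intro i
    unfold testPoint
    split_ifs
    · exact ⟨by linarith, hu2.le⟩
    · exact ⟨by linarith, by linarith⟩
    · exact ⟨hε, hε2⟩
  · intro hk2
    have : k = 1 ∨ k = 2 := by omega
    rcases this with rfl | rfl
    · exact det_one
    · exact det_two

end Pool.Agent.Results.MP_b1d502_nt.FiniteIffLeTwo
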